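import Mathlib

set_option autoImplicit false

namespace Pool.Agent.Results.MP_d594f7_lc.CesaroRamsey

open Filter Topology

/-- The space `[ω]^ω` of infinite subsets of `ℕ`, as a subspace of `2^ω` (characteristic
functions). -/
def InfSets : Type := {x : ℕ → Bool // {n | x n = true}.Infinite}

instance : TopologicalSpace InfSets := instTopologicalSpaceSubtype

instance : MeasurableSpace InfSets := borel InfSets

instance : BorelSpace InfSets := ⟨rfl⟩

/-- The infinite subset of `ℕ` coded by `x`. -/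
def InfSets.toSet (x : InfSets) : Set ℕ := {n | x.1 n = true}

/-- The set `[s, A]`: all `x` with `s ⊆ x ⊆ s ∪ A` and `x ∩ (max s + 1) = s`. -/
def basic (s : Finset ℕ) (A : Set ℕ) : Set InfSets :=
  {x | (s : Set ℕ) ⊆ x.toSet ∧ x.toSet ⊆ (s : Set ℕ) ∪ A ∧
    ∀ n ∈ x.toSet, (∃ m ∈ s, n ≤ m) → n ∈ s}

/-- Ramsey null sets. -/
def RamseyNull (N : Set InfSets) : Prop :=
  ∀ (s : Finset ℕ) (A : Set ℕ), A.Infinite → (∀ m ∈ s, ∀ a ∈ A, m < a) →
    ∃ B : Set ℕ, B ⊆ A ∧ B.Infinite ∧ basic s B ∩ N = ∅

/-- The Cesaro averages `F_n = (1/n) ∑_{m<n} f_m`. -/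
noncomputable def cesaro (f : ℕ → InfSets → ℝ) (n : ℕ) (x : InfSets) : ℝ :=
  (1 / (n : ℝ)) * ∑ m ∈ Finset.range n, f m x

/-- `F_{n_k}(x)` converges as `k → ∞`. -/
def Conv (f : ℕ → InfSets → ℝ) (n : ℕ → ℕ) (x : InfSets) : Prop :=
  ∃ L : ℝ, Tendsto (fun k => cesaro f (n k) x) atTop (𝓝 L)

/-- The counterexample: `f_m(x) = 1` if `x ∩ [0, m]` has an odd number of elements, and `0`
otherwise. -/
noncomputable def par (m : ℕ) (x : InfSets) : ℝ :=
  if Odd ((Finset.range (m + 1)).filter (fun j => x.1 j = true)).card then 1 else 0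

lemma par_continuous (m : ℕ) : Continuous (par m) := by
  have h1 : Continuous (fun x : InfSets => fun j : Fin (m + 1) => x.1 (j : ℕ)) := by
    refine continuous_pi fun j => ?_
    exact (continuous_apply (j : ℕ)).comp continuous_subtype_val
  let G : (Fin (m + 1) → Bool) → ℝ := fun y =>
    if Odd ((Finset.univ : Finset (Fin (m + 1))).filter (fun j => y j = true)).card then 1 else 0
  have h2 : par m = G ∘ (fun x : InfSets => fun j : Fin (m + 1) => x.1 (j : ℕ)) := by
    funext x
    simp only [par, G, Function.comp]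
    have hc : ((Finset.range (m + 1)).filter (fun j => x.1 j = true)).card
        = ((Finset.univ : Finset (Fin (m + 1))).filter (fun j : Fin (m + 1) => x.1 (j : ℕ) = true)).card := by
      rw [Finset.card_filter, Finset.card_filter, Finset.sum_range]
    rw [hc]
  rw [h2]
  exact (continuous_of_discreteTopology).comp h1

lemma par_mem (m : ℕ) (x : InfSets) : par m x ∈ Set.Icc (0 : ℝ) 1 := by
  unfold par
  split_ifs <;> simp

section
variable (n : ℕ → ℕ) (B : Set ℕ) (hB : B.Infinite)

/-- a very sparse sequence in `B` -/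
noncomputable def seqA : ℕ → ℕ
  | 0 => (hB.exists_gt 0).choose
  | i + 1 => (hB.exists_gt (n (4 * (seqA i + 1)))).choose

lemma seqA_mem (i : ℕ) : seqA n B hB i ∈ B := by
  cases i with
  | zero => exact (hB.exists_gt 0).choose_spec.1
  | succ i => exact (hB.exists_gt (n (4 * (seqA n B hB i + 1)))).choose_spec.1

lemma seqA_gt (i : ℕ) : n (4 * (seqA n B hB i + 1)) < seqA n B hB (i + 1) :=
  (hB.exists_gt (n (4 * (seqA n B hB i + 1)))).choose_spec.2

variable (hn : StrictMono n)
include hn

lemma le_n (i : ℕ) : 4 * (seqA n B hB i + 1) ≤ n (4 * (seqA n B hB i + 1)) := hn.le_apply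

lemma seqA_strictMono : StrictMono (seqA n B hB) := by
  refine strictMono_nat_of_lt_succ fun i => ?_
  have h1 := seqA_gt n B hB i
  have h2 := le_n n B hB hn i
  omega

/-- the point of `[ω]^ω` -/
noncomputable def pt : InfSets :=
  ⟨fun j => by classical exact decide (j ∈ Set.range (seqA n B hB)), by
    have h : {j | (by classical exact decide (j ∈ Set.range (seqA n B hB)) : Bool) = true}
        = Set.range (seqA n B hB) := by
      ext j
      simp
    rw [h]
    exact Set.infinite_range_of_injective (seqA_strictMono n B hB hn).injective⟩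

lemma pt_iff (j : ℕ) : (pt n B hB hn).1 j = true ↔ j ∈ Set.range (seqA n B hB) := by
  simp [pt]

lemma count (i m : ℕ) (h1 : seqA n B hB i ≤ m) (h2 : m < seqA n B hB (i + 1)) :
    ((Finset.range (m + 1)).filter (fun j => (pt n B hB hn).1 j = true)).card = i + 1 := by
  have hmono := seqA_strictMono n B hB hn
  have h : (Finset.range (m + 1)).filter (fun j => (pt n B hB hn).1 j = true)
      = (Finset.range (i + 1)).image (seqA n B hB) := by
    ext j
    simp only [Finset.mem_filter, Finset.mem_range, pt_iff, Set.mem_range, Finset.mem_image]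
    constructor
    · rintro ⟨hj, k, rfl⟩
      refine ⟨k, ?_, rfl⟩
      have : seqA n B hB k < seqA n B hB (i + 1) := by omega
      exact hmono.lt_iff_lt.1 this
    · rintro ⟨k, hk, rfl⟩
      refine ⟨?_, k, rfl⟩
      have : seqA n B hB k ≤ seqA n B hB i := hmono.monotone (by omega)
      omega
  rw [h, Finset.card_image_of_injective _ hmono.injective, Finset.card_range]

lemma par_even (i m : ℕ) (hi : Even i) (h1 : seqA n B hB i ≤ m) (h2 : m < seqA n B hB (i + 1)) :
    par m (pt n B hB hn) = 1 := by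
  unfold par
  rw [count n B hB hn i m h1 h2, if_pos (Even.add_one hi)]

lemma par_odd (i m : ℕ) (hi : Odd i) (h1 : seqA n B hB i ≤ m) (h2 : m < seqA n B hB (i + 1)) :
    par m (pt n B hB hn) = 0 := by
  unfold par
  rw [count n B hB hn i m h1 h2, if_neg]
  rw [Nat.not_odd_iff_even]
  exact Odd.add_one hi

lemma cesaro_even (i : ℕ) (hi : Even i) :
    3 / 4 ≤ cesaro par (n (4 * (seqA n B hB i + 1))) (pt n B hB hn) := by
  set N := n (4 * (seqA n B hB i + 1)) with hN
  have hN1 : 4 * (seqA n B hB i + 1) ≤ N := le_n n B hB hn i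
  have hN2 : N < seqA n B hB (i + 1) := seqA_gt n B hB i
  have hNpos : (0 : ℝ) < N := by
    have : 0 < N := by omega
    exact_mod_cast this
  unfold cesaro
  have hsum : ((N - seqA n B hB i : ℕ) : ℝ) ≤ ∑ m ∈ Finset.range N, par m (pt n B hB hn) := by
    have hsub : Finset.Ico (seqA n B hB i) N ⊆ Finset.range N := by
      intro j hj
      rw [Finset.mem_Ico] at hj
      exact Finset.mem_range.2 hj.2
    refine le_trans (le_of_eq ?_) (Finset.sum_le_sum_of_subset_of_nonneg hsub
      (fun j _ _ => (par_mem j _).1))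
    rw [Finset.sum_congr rfl (g := fun _ => (1 : ℝ))]
    · simp
    · intro j hj
      rw [Finset.mem_Ico] at hj
      exact par_even n B hB hn i j hi hj.1 (by omega)
  rw [Nat.cast_sub (by omega)] at hsum
  have hN1' : 4 * ((seqA n B hB i : ℝ) + 1) ≤ N := by exact_mod_cast hN1
  rw [one_div, inv_mul_eq_div, le_div_iff₀ hNpos]
  linarith

lemma cesaro_odd (i : ℕ) (hi : Odd i) :
    cesaro par (n (4 * (seqA n B hB i + 1))) (pt n B hB hn) ≤ 1 / 4 := by
  set N := n (4 * (seqA n B hB i + 1)) with hN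
  have hN1 : 4 * (seqA n B hB i + 1) ≤ N := le_n n B hB hn i
  have hN2 : N < seqA n B hB (i + 1) := seqA_gt n B hB i
  have hNpos : (0 : ℝ) < N := by
    have : 0 < N := by omega
    exact_mod_cast this
  unfold cesaro
  have hsum : ∑ m ∈ Finset.range N, par m (pt n B hB hn) ≤ (seqA n B hB i : ℝ) := by
    rw [← Finset.sum_range_add_sum_Ico _ (show seqA n B hB i ≤ N by omega)]
    have h1 : ∑ m ∈ Finset.Ico (seqA n B hB i) N, par m (pt n B hB hn) = 0 := by
      refine Finset.sum_eq_zero fun j hj => ?_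
      rw [Finset.mem_Ico] at hj
      exact par_odd n B hB hn i j hi hj.1 (by omega)
    rw [h1, add_zero]
    refine le_trans (Finset.sum_le_sum (g := fun _ => (1 : ℝ)) fun j _ => (par_mem j _).2) ?_
    simp
  have hN1' : 4 * ((seqA n B hB i : ℝ) + 1) ≤ N := by exact_mod_cast hN1
  rw [one_div, inv_mul_eq_div, div_le_iff₀ hNpos]
  linarith

lemma not_conv : ¬ Conv par n (pt n B hB hn) := by
  rintro ⟨L, hL⟩
  have hmono := seqA_strictMono n B hB hn
  have hk : ∀ r : ℕ, StrictMono (fun j : ℕ => 4 * (seqA n B hB (2 * j + r) + 1)) := by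
    intro r i j hij
    have : seqA n B hB (2 * i + r) < seqA n B hB (2 * j + r) := hmono (by omega)
    simp only
    omega
  have h0 := hL.comp (hk 0).tendsto_atTop
  have h1 := hL.comp (hk 1).tendsto_atTop
  have a0 : 3 / 4 ≤ L := ge_of_tendsto' h0 fun j => cesaro_even n B hB hn (2 * j + 0) (by simp)
  have a1 : L ≤ 1 / 4 := le_of_tendsto' h1 fun j => cesaro_odd n B hB hn (2 * j + 1)
    (odd_two_mul_add_one j)
  linarith

end

/-- **Negative answer to Q1.** There are Borel (even continuous) functions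
`f_m : [ω]^ω → [0,1]` such that for every subsequence `(F_{n_k})` of the Cesaro averages the set of
points at which `(F_{n_k}(x))_k` diverges is not Ramsey null; consequently no subsequence
converges outside a (Borel) Ramsey null set. -/
theorem result :
    ∃ f : ℕ → InfSets → ℝ, (∀ m, Measurable (f m)) ∧ (∀ m, Continuous (f m)) ∧
      (∀ m x, f m x ∈ Set.Icc (0 : ℝ) 1) ∧
      (∀ n : ℕ → ℕ, StrictMono n → ¬ RamseyNull {x | ¬ Conv f n x}) ∧
      ¬ ∃ n : ℕ → ℕ, StrictMono n ∧ ∃ N : Set InfSets, MeasurableSet N ∧ RamseyNull N ∧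
        ∀ x, x ∉ N → Conv f n x := by
  have key : ∀ n : ℕ → ℕ, StrictMono n → ∀ N : Set InfSets, RamseyNull N →
      ∃ x, x ∉ N ∧ ¬ Conv par n x := by
    intro n hn N hN
    obtain ⟨B, -, hB, hBN⟩ := hN ∅ Set.univ Set.infinite_univ (by simp)
    refine ⟨pt n B hB hn, ?_, not_conv n B hB hn⟩
    intro hx
    have hmem : pt n B hB hn ∈ basic ∅ B := by
      refine ⟨by simp, ?_, by simp⟩
      intro j hj
      right
      obtain ⟨i, rfl⟩ := (pt_iff n B hB hn j).1 hj
      exact seqA_mem n B hB i
    have : pt n B hB hn ∈ basic ∅ B ∩ N := ⟨hmem, hx⟩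
    rw [hBN] at this
    exact this
  refine ⟨par, fun m => (par_continuous m).measurable, par_continuous, par_mem, ?_, ?_⟩
  · intro n hn hN
    obtain ⟨x, hx, hc⟩ := key n hn _ hN
    exact hx hc
  · rintro ⟨n, hn, N, -, hN, hconv⟩
    obtain ⟨x, hx, hc⟩ := key n hn N hN
    exact hc (hconv x hx)

end Pool.Agent.Results.MP_d594f7_lc.CesaroRamsey
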